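import Mathlib
import Pool.Agent.X18.Spread

/-!
# Balanced digraphs with Laplacian spread one are regular
-/

set_option autoImplicit false

namespace Pool.Agent.Results.MP_436edf_co.SpreadOneRegular

open Pool.Agent.X18.Spread Finset

/-- The complement: `(i, j)`, `i ≠ j`, is an arc iff it is not an arc of `G`. -/
def compl {n : ℕ} (G : Digraph (Fin n)) : Digraph (Fin n) where
  Adj i j := i ≠ j ∧ ¬ G.Adj i j

/-- `G` is `k`-regular: every vertex has out-degree and in-degree `k`. -/
def IsRegular {n : ℕ} (G : Digraph (Fin n)) (k : ℕ) : Prop :=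
  ∀ i, outDeg G i = k ∧ inDeg G i = k

open Classical in
lemma outDeg_compl {n : ℕ} (G : Digraph (Fin n)) (hG : IsBalanced G) (i : Fin n) :
    outDeg (compl G) i + outDeg G i = n - 1 := by
  have h1 : (univ.filter fun j => (compl G).Adj i j) = (univ.filter fun j => ¬ G.Adj i j).erase i := by
    ext j
    simp only [compl, mem_filter, mem_univ, true_and, mem_erase]
    exact and_congr_left' ⟨Ne.symm, Ne.symm⟩
  have h2 := card_filter_add_card_filter_not (s := (univ : Finset (Fin n))) (fun j => G.Adj i j)
  rw [card_univ, Fintype.card_fin] at h2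
  unfold outDeg
  rw [h1, card_erase_of_mem (by simp [hG.loopless i])]
  have h3 : 0 < (univ.filter fun j => ¬ G.Adj i j).card :=
    card_pos.2 ⟨i, by simp [hG.loopless i]⟩
  omega

open Classical in
lemma inDeg_compl {n : ℕ} (G : Digraph (Fin n)) (hG : IsBalanced G) (i : Fin n) :
    inDeg (compl G) i + inDeg G i = n - 1 := by
  have h1 : (univ.filter fun j => (compl G).Adj j i) = (univ.filter fun j => ¬ G.Adj j i).erase i := by
    ext j
    simp only [compl, mem_filter, mem_univ, true_and, mem_erase]
  have h2 := card_filter_add_card_filter_not (s := (univ : Finset (Fin n))) (fun j => G.Adj j i)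
  rw [card_univ, Fintype.card_fin] at h2
  unfold inDeg
  rw [h1, card_erase_of_mem (by simp [hG.loopless i])]
  have h3 : 0 < (univ.filter fun j => ¬ G.Adj j i).card :=
    card_pos.2 ⟨i, by simp [hG.loopless i]⟩
  omega

/-- If a balanced digraph of order `n ≥ 3` has Laplacian spread `1`, then `n ≥ 4` is even and the
digraph or its complement is `(n - 2) / 2`-regular. -/
theorem result (n : ℕ) (hn : 3 ≤ n) (G : Digraph (Fin n)) (hG : IsBalanced G)
    (hsp : sp G = 1) :
    4 ≤ n ∧ Even n ∧ (IsRegular G ((n - 2) / 2) ∨ IsRegular (compl G) ((n - 2) / 2)) := by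
  rcases dichotomy G hG (by omega) hsp.le with h | ⟨heven, h4, -, h⟩
  · rw [h] at hsp
    exact absurd hsp zero_ne_one
  · refine ⟨h4, heven, ?_⟩
    rcases h with h | h
    · left
      intro i
      have h1 := h i
      have h2 := hG.balanced i
      constructor <;> omega
    · right
      intro i
      have h1 := h i
      have h2 := hG.balanced i
      have h3 := outDeg_compl G hG i
      have h5 := inDeg_compl G hG i
      constructor <;> omega

end Pool.Agent.Results.MP_436edf_co.SpreadOneRegular
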